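import Pool.Agent.TH694.GP.M3

/-!
# Globally rigid pinning: adding a complete graph on `P`
-/

set_option autoImplicit false

namespace Pool.Agent.TH694.GP

open Pool.Agent.H598R2.Cnt

variable {V : Type*} [DecidableEq V]

namespace M4BL2

/-- the proper subsets of the complete graph on four vertices are sparse -/
lemma sp_proper {Q : Finset V} (hQ : Q.card = 4) {T : Finset (Finset V)}
    (hT : T ⊆ Q.powersetCard 2) (h5 : T.card ≤ 5) : Sp T := by
  intro X hX
  have h1 : ins T X ≤ T.card := ins_le_card T X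
  have h2 : ins T X ≤ ((Q ∩ X).powersetCard 2).card := by
    unfold ins
    refine Finset.card_le_card (fun p hp => ?_)
    rw [Finset.mem_filter] at hp
    have h3 := Finset.mem_powersetCard.1 (hT hp.1)
    exact Finset.mem_powersetCard.2 ⟨Finset.subset_inter h3.1 hp.2, h3.2⟩
  rw [Finset.card_powersetCard] at h2
  have h3 : (Q ∩ X).card ≤ 4 := hQ ▸ Finset.card_le_card Finset.inter_subset_left
  have h4 : (Q ∩ X).card ≤ X.card := Finset.card_le_card Finset.inter_subset_right
  generalize (Q ∩ X).card = q at h2 h3 h4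
  have h6 : q = 0 ∨ q = 1 ∨ q = 2 ∨ q = 3 ∨ q = 4 := by omega
  rcases h6 with rfl | rfl | rfl | rfl | rfl
  · have : Nat.choose 0 2 = 0 := by decide
    omega
  · have : Nat.choose 1 2 = 0 := by decide
    omega
  · have : Nat.choose 2 2 = 1 := by decide
    omega
  · have : Nat.choose 3 2 = 3 := by decide
    omega
  · omega

lemma rk_proper {Q : Finset V} (hQ : Q.card = 4) {T : Finset (Finset V)}
    (hT : T ⊆ Q.powersetCard 2) (h5 : T.card ≤ 5) : rk T = T.card := rk_of_sp (sp_proper hQ hT h5)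

omit [DecidableEq V] in
lemma card_K4 {Q : Finset V} (hQ : Q.card = 4) : (Q.powersetCard 2).card = 6 := by
  rw [Finset.card_powersetCard, hQ]
  decide

/-- a separator does not split the complete graph on four vertices -/
lemma mem_of_sepr {H S : Finset (Finset V)} (hH : Pairs H) (hS : Sepr H S) {Q : Finset V}
    (hQ : Q.card = 4) (hQH : Q.powersetCard 2 ⊆ H) {e f : Finset V} (he : e ∈ Q.powersetCard 2)
    (hf : f ∈ Q.powersetCard 2) (heS : e ∈ S) : f ∈ S := by
  by_contra hfS
  have h1 := rk_split hH hS hQH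
  have h2 : rk (Q.powersetCard 2) + 3 ≤ 2 * Q.card :=
    rk_le_of_sub (fun p hp => (Finset.mem_powersetCard.1 hp).2)
      (fun p hp => (Finset.mem_powersetCard.1 hp).1) (by omega)
  have h3 : (Q.powersetCard 2 \ S).card + (Q.powersetCard 2 ∩ S).card = 6 := by
    rw [Finset.card_sdiff_add_card_inter, card_K4 hQ]
  have h4 : 0 < (Q.powersetCard 2 \ S).card :=
    Finset.card_pos.2 ⟨f, Finset.mem_sdiff.2 ⟨hf, hfS⟩⟩
  have h5 : 0 < (Q.powersetCard 2 ∩ S).card :=
    Finset.card_pos.2 ⟨e, Finset.mem_inter.2 ⟨he, heS⟩⟩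
  rw [rk_proper hQ Finset.inter_subset_left (by omega),
    rk_proper hQ Finset.sdiff_subset (by omega)] at h1
  omega

/-- the complete graph on `P` is contained in one component -/
lemma mem_cmp {H : Finset (Finset V)} (hH : Pairs H) {P : Finset V} (h4 : 4 ≤ P.card)
    (hPH : P.powersetCard 2 ⊆ H) {e f : Finset V} (he : e ∈ P.powersetCard 2)
    (hf : f ∈ P.powersetCard 2) : f ∈ cmp H e := by
  classical
  simp only [cmp, Finset.mem_filter]
  refine ⟨hPH hf, fun S hS heS => ?_⟩
  have he' := Finset.mem_powersetCard.1 he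
  have hf' := Finset.mem_powersetCard.1 hf
  have h1 : (e ∪ f).card ≤ 4 := (Finset.card_union_le e f).trans (by omega)
  obtain ⟨Q, h2, h3, h5⟩ := Finset.exists_subsuperset_card_eq
    (Finset.union_subset he'.1 hf'.1) h1 h4
  exact mem_of_sepr hH hS h5 ((Finset.powersetCard_mono h3).trans hPH)
    (Finset.mem_powersetCard.2 ⟨Finset.subset_union_left.trans h2, he'.2⟩)
    (Finset.mem_powersetCard.2 ⟨Finset.subset_union_right.trans h2, hf'.2⟩) heS

end M4BL2

open M4BL2

theorem claimB {U : Finset V} {Γ : Finset (Finset V)} {P : Finset V} (hΓ : Pairs Γ)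
    (hU : ∀ p ∈ Γ, p ⊆ U) (hP : P ⊆ U) (h4 : 4 ≤ P.card) (hV : Val (bodies Γ) (U \ P)) :
    Rig (Γ ∪ P.powersetCard 2) U ∧
      ∀ e ∈ Γ ∪ P.powersetCard 2, Rig ((Γ ∪ P.powersetCard 2).erase e) U := by
  set K : Finset (Finset V) := P.powersetCard 2 with hK
  set H : Finset (Finset V) := Γ ∪ K with hHdef
  have hH : Pairs H := by
    intro p hp
    rcases Finset.mem_union.1 hp with h | h
    · exact hΓ p h
    · exact (Finset.mem_powersetCard.1 h).2
  have hHU : ∀ p ∈ H, p ⊆ U := by
    intro p hp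
    rcases Finset.mem_union.1 hp with h | h
    · exact hU p h
    · exact (Finset.mem_powersetCard.1 h).1.trans hP
  have hKH : K ⊆ H := Finset.subset_union_right
  have hΓH : Γ ⊆ H := Finset.subset_union_left
  have hPU : P.card ≤ U.card := Finset.card_le_card hP
  have hU2 : 2 ≤ U.card := by omega
  obtain ⟨e₀, he₀⟩ : K.Nonempty := by
    rw [hK, Finset.powersetCard_nonempty]
    omega
  have he₀H := hKH he₀
  set D : Finset (Finset V) := cmp H e₀ with hD
  have hKD : K ⊆ D := fun f hf => mem_cmp hH h4 hKH he₀ hf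
  have hDH : D ⊆ H := cmp_subset H e₀
  have hPD : P ⊆ vs D := by
    intro x hx
    obtain ⟨y, hy, hyx⟩ := Finset.exists_mem_ne (show 1 < P.card by omega) x
    unfold vs
    rw [Finset.mem_biUnion]
    refine ⟨{x, y}, hKD (Finset.mem_powersetCard.2 ⟨?_, Finset.card_pair hyx.symm⟩), by simp⟩
    rw [Finset.insert_subset_iff, Finset.singleton_subset_iff]
    exact ⟨hx, hy⟩
  have hDU : vs D ⊆ U := by
    intro x hx
    unfold vs at hx
    rw [Finset.mem_biUnion] at hx
    obtain ⟨p, hp, hxp⟩ := hx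
    exact hHU p (hDH hp) hxp
  have hS : Sepr H D := sepr_cmp hH he₀H
  have h1 : rk D + rk (H \ D) = rk H := hS.2
  have h2 : rk D + 3 = 2 * (vs D).card := rk_cmp hH he₀H
  have h3 : rk H + 3 ≤ 2 * U.card := rk_le_of_sub hH hHU hU2
  have h5 : (U \ vs D).card + (vs D).card = U.card := Finset.card_sdiff_add_card_eq_card hDU
  -- the component of `K` covers everything
  have hZ : U \ vs D = ∅ := by
    by_contra hne
    have hne' : (U \ vs D).Nonempty := Finset.nonempty_iff_ne_empty.2 hne
    have h6 := hV (U \ vs D) (Finset.sdiff_subset_sdiff subset_rfl hPD) hne'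
    rw [bb_bodies hΓ] at h6
    have h7 : rk (Γ.filter (fun e => (vs (cmp Γ e) ∩ (U \ vs D)).Nonempty)) ≤ rk (H \ D) := by
      apply rk_mono
      intro e he
      rw [Finset.mem_filter] at he
      obtain ⟨heΓ, z, hz⟩ := he
      rw [Finset.mem_inter, Finset.mem_sdiff] at hz
      obtain ⟨hz1, -, hz2⟩ := hz
      rw [Finset.mem_sdiff]
      refine ⟨hΓH heΓ, fun heD => hz2 ?_⟩
      unfold vs at hz1 ⊢
      rw [Finset.mem_biUnion] at hz1 ⊢
      obtain ⟨g, hg, hzg⟩ := hz1
      refine ⟨g, ?_, hzg⟩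
      have h8 : cmp H e = D := cmp_eq_of_mem hH he₀H heD
      rw [← h8]
      exact cmp_mono hH hΓH heΓ hg
    omega
  have hvs : vs D = U := Finset.Subset.antisymm hDU (Finset.sdiff_eq_empty_iff_subset.1 hZ)
  rw [hvs] at h2
  have h6 : rk H + 3 = 2 * U.card := by omega
  have h7 : rk (H \ D) = 0 := by omega
  have hHD : H ⊆ D := by
    intro e he
    by_contra heD
    have h8 : rk {e} ≤ rk (H \ D) :=
      rk_mono (Finset.singleton_subset_iff.2 (Finset.mem_sdiff.2 ⟨he, heD⟩))
    rw [rk_singleton (hH e he), h7] at h8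
    omega
  refine ⟨(rig_iff_rk hH hHU hU2).2 h6, fun e he => ?_⟩
  have hH' : Pairs (H.erase e) := fun p hp => hH p (Finset.mem_of_mem_erase hp)
  have hHU' : ∀ p ∈ H.erase e, p ⊆ U := fun p hp => hHU p (Finset.mem_of_mem_erase hp)
  rw [rig_iff_rk hH' hHU' hU2]
  have h8 : rk (H.erase e) ≤ rk H := rk_mono (Finset.erase_subset e H)
  by_contra hne
  have h9 : rk H ≤ rk (H.erase e) + rk {e} := by
    have h10 := rk_union_le (H.erase e) {e}
    have h11 : H.erase e ∪ {e} = H := by
      rw [Finset.union_comm, ← Finset.insert_eq, Finset.insert_erase he]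
    rwa [h11] at h10
  rw [rk_singleton (hH e he)] at h9
  have h10 : Sepr H {e} := by
    refine ⟨Finset.singleton_subset_iff.2 he, ?_⟩
    rw [Finset.sdiff_singleton_eq_erase, rk_singleton (hH e he)]
    omega
  have h11 : cmp H e ⊆ {e} := cmp_subset_of_sepr h10 (Finset.mem_singleton_self e)
  have h12 : cmp H e = D := cmp_eq_of_mem hH he₀H (hHD he)
  have h13 : K ⊆ {e} := (hKD.trans h12.symm.subset).trans h11
  have h14 : K.card ≤ 1 := (Finset.card_le_card h13).trans (Finset.card_singleton e).le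
  rw [hK, Finset.card_powersetCard] at h14
  have h15 : Nat.choose 4 2 ≤ Nat.choose P.card 2 := Nat.choose_le_choose 2 h4
  have h16 : Nat.choose 4 2 = 6 := by decide
  omega

end Pool.Agent.TH694.GP
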