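import Pool.Agent.TH694.GP.Defs

/-!
# Globally rigid pinning: adding a complete graph and small separations
-/

set_option autoImplicit false

namespace Pool.Agent.TH694.GP

open Pool.Agent.H598R2.Cnt

variable {V : Type*} [DecidableEq V]

namespace M4BL

lemma mem_un {Γ : Finset (Finset V)} {P : Finset V} {v x : V} :
    ({v, x} : Finset V) ∈ Γ ∪ P.powersetCard 2 ↔ {v, x} ∈ Γ ∨ (v ∈ P ∧ x ∈ P ∧ v ≠ x) := by
  rw [Finset.mem_union, Finset.mem_powersetCard, Finset.insert_subset_iff,
    Finset.singleton_subset_iff]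
  constructor
  · rintro (h | ⟨⟨h1, h2⟩, h3⟩)
    · exact Or.inl h
    · refine Or.inr ⟨h1, h2, ?_⟩
      rintro rfl
      simp at h3
  · rintro (h | ⟨h1, h2, h3⟩)
    · exact Or.inl h
    · exact Or.inr ⟨⟨h1, h2⟩, Finset.card_pair h3⟩

lemma Nb_un {U : Finset V} {Γ : Finset (Finset V)} {P X : Finset V} (h : ¬ (X ∩ P).Nonempty) :
    Nb U (Γ ∪ P.powersetCard 2) X = Nb U Γ X := by
  ext v
  rw [mem_Nb, mem_Nb]
  refine and_congr_right (fun _ => and_congr_right (fun _ => exists_congr (fun x =>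
    and_congr_right (fun hx => ?_))))
  rw [mem_un]
  constructor
  · rintro (h1 | ⟨_, h1, _⟩)
    · exact h1
    · exact absurd ⟨x, Finset.mem_inter.2 ⟨hx, h1⟩⟩ h
  · exact Or.inl

end M4BL

open M4BL

/-- the sets with two neighbours after adding the complete graph on `P` -/
theorem claim_hit {U : Finset V} {Γ : Finset (Finset V)} {P : Finset V} (hU : ∀ p ∈ Γ, p ⊆ U)
    (hP : P ⊆ U) : (∀ X, ¬ Sepd U (Γ ∪ P.powersetCard 2) X) ↔ Hit U Γ P := by
  constructor
  · intro h X hX
    by_contra hn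
    apply h X
    obtain ⟨h1, h2, h3, h4⟩ := hX
    refine ⟨h1, h2, ?_, ?_⟩
    · rwa [Nb_un hn]
    · rwa [Nb_un hn]
  · intro h X hX
    obtain ⟨h1, h2, h3, h4⟩ := hX
    by_cases hn : (X ∩ P).Nonempty
    · obtain ⟨x, hx⟩ := hn
      rw [Finset.mem_inter] at hx
      have hP' : P ⊆ X ∪ Nb U (Γ ∪ P.powersetCard 2) X := by
        intro v hv
        rw [Finset.mem_union]
        by_cases hvX : v ∈ X
        · exact Or.inl hvX
        · refine Or.inr (mem_Nb.2 ⟨hP hv, hvX, x, hx.1, mem_un.2 (Or.inr ⟨hv, hx.2, ?_⟩)⟩)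
          rintro rfl
          exact hvX hx.1
      have hsub : X ∪ Nb U (Γ ∪ P.powersetCard 2) X ⊆ U := by
        refine Finset.union_subset h1 (fun v hv => ?_)
        exact (mem_Nb.1 hv).1
      set X' : Finset V := U \ (X ∪ Nb U (Γ ∪ P.powersetCard 2) X) with hX'
      have hne : X'.Nonempty := by
        rw [hX', Finset.sdiff_nonempty]
        intro hs
        exact h4 (Finset.Subset.antisymm hsub hs)
      have hNb : Nb U Γ X' ⊆ Nb U (Γ ∪ P.powersetCard 2) X := by
        intro v hv
        rw [mem_Nb] at hv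
        obtain ⟨hvU, hvX', y, hy, hvy⟩ := hv
        rw [hX', Finset.mem_sdiff, not_and, not_not, Finset.mem_union] at hvX'
        rcases hvX' hvU with h5 | h5
        · exfalso
          rw [hX', Finset.mem_sdiff, Finset.mem_union, not_or] at hy
          apply hy.2.2
          refine mem_Nb.2 ⟨hy.1, hy.2.1, v, h5, mem_un.2 (Or.inl ?_)⟩
          rw [Finset.pair_comm]
          exact hvy
        · exact h5
      have hS : Sepd U Γ X' := by
        refine ⟨Finset.sdiff_subset, hne, (Finset.card_le_card hNb).trans h3, ?_⟩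
        intro he
        obtain ⟨z, hz⟩ := h2
        have hz' : z ∈ X' ∪ Nb U Γ X' := by rw [he]; exact h1 hz
        rw [Finset.mem_union] at hz'
        rcases hz' with h5 | h5
        · rw [hX', Finset.mem_sdiff, Finset.mem_union, not_or] at h5
          exact h5.2.1 hz
        · exact (mem_Nb.1 (hNb h5)).2.1 hz
      obtain ⟨w, hw⟩ := h X' hS
      rw [Finset.mem_inter, hX', Finset.mem_sdiff] at hw
      exact hw.1.2 (hP' hw.2)
    · apply hn
      apply h X
      rw [Nb_un hn] at h3 h4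
      exact ⟨h1, h2, h3, h4⟩

end Pool.Agent.TH694.GP
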